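import Pool.Agent.helper24.SK.Spec

set_option autoImplicit false

namespace Pool.Agent.SK

open Finset ArithmeticFunction MeasureTheory
open Pool.Agent.CH (nit DPb Win Tset ph)
open Pool.Agent.EC (tri vN fN XN TL AdT)
open Pool.Agent.helper85.BVP (tau)
open GD (ks)

private lemma HB7_cast (k : ℕ) (f : ArithmeticFunction ℝ) (n : ℕ) :
    ((k : ArithmeticFunction ℝ) * f) n = k * f n := by
  induction k with
  | zero => simp
  | succ k ih =>
    rw [Nat.cast_succ, add_mul, ArithmeticFunction.add_apply, ih, one_mul]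
    push_cast
    ring

private lemma HB7_pow (f : ArithmeticFunction ℝ) (z : ℕ) (hf : ∀ n, f n ≠ 0 → z + 1 ≤ n) (k : ℕ) :
    ∀ n, (f ^ k) n ≠ 0 → (z + 1) ^ k ≤ n := by
  induction k with
  | zero =>
    intro n hn
    rw [pow_zero] at hn ⊢
    by_contra h
    have : n = 0 := by omega
    subst this
    exact hn (by simp)
  | succ k ih =>
    intro n hn
    rw [pow_succ, ArithmeticFunction.mul_apply] at hn
    obtain ⟨x, hx, hx'⟩ := Finset.exists_ne_zero_of_sum_ne_zero hn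
    have h1 := ih x.1 (left_ne_zero_of_mul hx')
    have h2 := hf x.2 (right_ne_zero_of_mul hx')
    have h3 := (Nat.mem_divisorsAntidiagonal.1 hx).1
    calc (z + 1) ^ (k + 1) = (z + 1) ^ k * (z + 1) := pow_succ _ _
      _ ≤ x.1 * x.2 := Nat.mul_le_mul h1 h2
      _ = n := h3

private lemma HB7_eps (z n : ℕ) (hn : n ≤ z) :
    ((1 : ArithmeticFunction ℝ) - ((zeta : ArithmeticFunction ℕ) : ArithmeticFunction ℝ) * muz z) n = 0 := by
  rcases Nat.eq_zero_or_pos n with h0 | h0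
  · subst h0; simp
  have h1 : (((zeta : ArithmeticFunction ℕ) : ArithmeticFunction ℝ) * muz z) n =
      (((zeta : ArithmeticFunction ℕ) : ArithmeticFunction ℝ) * ((moebius : ArithmeticFunction ℤ) : ArithmeticFunction ℝ)) n := by
    rw [ArithmeticFunction.mul_apply, ArithmeticFunction.mul_apply]
    refine Finset.sum_congr rfl fun x hx => ?_
    have h2 := Nat.mem_divisorsAntidiagonal.1 hx
    have h3 : x.2 ≤ z := (Nat.le_of_dvd h0 (Dvd.intro_left x.1 h2.1)).trans hn
    congr 1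
    simp [muz, h3]
  have h4 : ((1 : ArithmeticFunction ℝ) - ((zeta : ArithmeticFunction ℕ) : ArithmeticFunction ℝ) * muz z) n =
      (1 : ArithmeticFunction ℝ) n - (((zeta : ArithmeticFunction ℕ) : ArithmeticFunction ℝ) * muz z) n := by
    rw [sub_eq_add_neg, ArithmeticFunction.add_apply]
    rfl
  rw [h4, h1, ArithmeticFunction.coe_zeta_mul_coe_moebius, sub_self]

theorem HB7 : HB7_stmt := by
  intro z n hn1 hn
  obtain ⟨Z, hZ⟩ : ∃ Z : ArithmeticFunction ℝ, Z = ((zeta : ArithmeticFunction ℕ) : ArithmeticFunction ℝ) := ⟨_, rfl⟩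
  obtain ⟨m, hm⟩ : ∃ m : ArithmeticFunction ℝ, m = muz z := ⟨_, rfl⟩
  obtain ⟨V, hV⟩ : ∃ V : ArithmeticFunction ℝ, V = (vonMangoldt : ArithmeticFunction ℝ) := ⟨_, rfl⟩
  have hlog : V * Z = ArithmeticFunction.log := by rw [hV, hZ]; exact vonMangoldt_mul_zeta
  obtain ⟨E, hE⟩ : ∃ E : ArithmeticFunction ℝ, E = (1 - Z * m) ^ 7 := ⟨_, rfl⟩
  obtain ⟨F, hF⟩ : ∃ F : ArithmeticFunction ℝ, F = V * E := ⟨_, rfl⟩
  have hzero : F n = 0 := by
    rw [hF, ArithmeticFunction.mul_apply]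
    apply Finset.sum_eq_zero
    intro x hx
    have h2 := Nat.mem_divisorsAntidiagonal.1 hx
    have h3 : x.2 ≤ n := Nat.le_of_dvd hn1 (Dvd.intro_left x.1 h2.1)
    by_contra hne
    have hne2 := right_ne_zero_of_mul hne
    rw [hE] at hne2
    have h4 := HB7_pow (1 - Z * m) z (fun k hk => by
      by_contra hlt
      refine hk ?_
      rw [hZ, hm]
      exact (HB7_eps z k (by omega))) 7 x.2 hne2
    have h5 : z ^ 7 < (z + 1) ^ 7 := Nat.pow_lt_pow_left (Nat.lt_succ_self z) (by norm_num)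
    omega
  have key : V = F +
      (((7 : ℕ) : ArithmeticFunction ℝ) * (m ^ 1 * Z ^ 0 * ArithmeticFunction.log)
      - ((21 : ℕ) : ArithmeticFunction ℝ) * (m ^ 2 * Z ^ 1 * ArithmeticFunction.log)
      + ((35 : ℕ) : ArithmeticFunction ℝ) * (m ^ 3 * Z ^ 2 * ArithmeticFunction.log)
      - ((35 : ℕ) : ArithmeticFunction ℝ) * (m ^ 4 * Z ^ 3 * ArithmeticFunction.log)
      + ((21 : ℕ) : ArithmeticFunction ℝ) * (m ^ 5 * Z ^ 4 * ArithmeticFunction.log)
      - ((7 : ℕ) : ArithmeticFunction ℝ) * (m ^ 6 * Z ^ 5 * ArithmeticFunction.log)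
      + ((1 : ℕ) : ArithmeticFunction ℝ) * (m ^ 7 * Z ^ 6 * ArithmeticFunction.log)) := by
    rw [hF, hE, ← hlog]
    push_cast
    ring
  have hsub : ∀ f g : ArithmeticFunction ℝ, (f - g) n = f n - g n := by
    intro f g
    rw [sub_eq_add_neg, ArithmeticFunction.add_apply]
    rfl
  have h1 := congrArg (fun f : ArithmeticFunction ℝ => f n) key
  simp only [ArithmeticFunction.add_apply, hsub, HB7_cast, hzero] at h1
  rw [← hV, ← hZ, ← hm, h1]
  have hI : (Icc 1 7 : Finset ℕ) = insert 1 (insert 2 (insert 3 (insert 4 (insert 5 (insert 6 {7}))))) := by decide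
  have c1 : Nat.choose 7 1 = 7 := by decide
  have c2 : Nat.choose 7 2 = 21 := by decide
  have c3 : Nat.choose 7 3 = 35 := by decide
  have c4 : Nat.choose 7 4 = 35 := by decide
  have c5 : Nat.choose 7 5 = 21 := by decide
  have c6 : Nat.choose 7 6 = 7 := by decide
  have c7 : Nat.choose 7 7 = 1 := by decide
  rw [hI, Finset.sum_insert (by decide), Finset.sum_insert (by decide), Finset.sum_insert (by decide),
    Finset.sum_insert (by decide), Finset.sum_insert (by decide), Finset.sum_insert (by decide),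
    Finset.sum_singleton, c1, c2, c3, c4, c5, c6, c7]
  have e1 : (1 : ℕ) - 1 = 0 := rfl
  have e2 : (2 : ℕ) - 1 = 1 := rfl
  have e3 : (3 : ℕ) - 1 = 2 := rfl
  have e4 : (4 : ℕ) - 1 = 3 := rfl
  have e5 : (5 : ℕ) - 1 = 4 := rfl
  have e6 : (6 : ℕ) - 1 = 5 := rfl
  have e7 : (7 : ℕ) - 1 = 6 := rfl
  rw [e1, e2, e3, e4, e5, e6, e7]
  push_cast
  ring

end Pool.Agent.SK
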